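import Mathlib
import Pool.Agent.GPI.DimThree

set_option autoImplicit false

open MeasureTheory ProbabilityTheory

namespace Pool.Agent.Results.MP_130bb2_pr.DimThree

/-- The Gaussian product inequality in dimension three: every centered Gaussian law on `ℝ³`
(any covariance matrix) and all real exponents. -/
theorem result :
    ∀ (μ : Measure (Fin 3 → ℝ)), IsGaussian μ → ∫ x, x ∂μ = 0 →
      ∀ ν : Fin 3 → ℝ, (∀ i, 0 ≤ ν i) →
        ∏ i, ∫ x, |x i| ^ (2 * ν i) ∂μ ≤ ∫ x, ∏ i, |x i| ^ (2 * ν i) ∂μ := by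
  intro μ hμ h0 ν hν
  exact Pool.Agent.GPI.dim_three μ h0 ν hν

end Pool.Agent.Results.MP_130bb2_pr.DimThree
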