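import Mathlib
import Pool.Agent.GPI.RankTwo

set_option autoImplicit false

open MeasureTheory ProbabilityTheory

namespace Pool.Agent.Results.MP_130bb2_pr.RankTwo

/-- The Gaussian product inequality with integer exponents for every centered Gaussian vector
(of any dimension) whose covariance matrix has rank at most two. -/
theorem result :
    ∀ (d : ℕ) (μ : Measure (Fin d → ℝ)), IsGaussian μ → ∫ x, x ∂μ = 0 →
      (Matrix.of fun i j : Fin d => ∫ x, x i * x j ∂μ).rank ≤ 2 →
      ∀ ν : Fin d → ℕ,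
        ∏ i, ∫ x, |x i| ^ (2 * ν i) ∂μ ≤ ∫ x, ∏ i, |x i| ^ (2 * ν i) ∂μ := by
  intro d μ hμ h0 hr ν
  exact Pool.Agent.GPI.rank_two μ h0 hr ν

end Pool.Agent.Results.MP_130bb2_pr.RankTwo
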