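import Mathlib
import Pool.Agent.GPI.Dunkl4

set_option autoImplicit false

open MeasureTheory ProbabilityTheory

namespace Pool.Agent.Results.MP_130bb2_pr.UncorrelatedAndSquares

/-- The Gaussian product inequality in every dimension when the coordinates in a set `S` are
pairwise uncorrelated and carry arbitrary real exponents and all other exponents are `0` or `1`
(first part; for instance `S` a single index: exponents `(ν₁, 1, …, 1)` with `ν₁` real, any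
covariance), and a lower bound when the exponents outside `S` are arbitrary integers `n i`
(second part; `n!` replaces the moment `(2n-1)!!`). -/
theorem result :
    (∀ (d : ℕ) (μ : Measure (Fin d → ℝ)), IsGaussian μ → ∫ x, x ∂μ = 0 →
      ∀ S : Finset (Fin d), (∀ a ∈ S, ∀ b ∈ S, a ≠ b → ∫ x, x a * x b ∂μ = 0) →
      ∀ ν : Fin d → ℝ, (∀ i, 0 ≤ ν i) → (∀ i, i ∉ S → ν i = 0 ∨ ν i = 1) →
        ∏ i, ∫ x, |x i| ^ (2 * ν i) ∂μ ≤ ∫ x, ∏ i, |x i| ^ (2 * ν i) ∂μ) ∧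
    (∀ (d : ℕ) (μ : Measure (Fin d → ℝ)), IsGaussian μ → ∫ x, x ∂μ = 0 →
      ∀ S : Finset (Fin d), (∀ a ∈ S, ∀ b ∈ S, a ≠ b → ∫ x, x a * x b ∂μ = 0) →
      ∀ ν : Fin d → ℝ, (∀ i, 0 ≤ ν i) → ∀ n : Fin d → ℕ, (∀ i, i ∉ S → ν i = n i) →
        (∏ i ∈ S, ∫ x, |x i| ^ (2 * ν i) ∂μ)
            * ∏ i ∈ Sᶜ, ((n i).factorial : ℝ) * (∫ x, x i ^ 2 ∂μ) ^ (n i)
          ≤ ∫ x, ∏ i, |x i| ^ (2 * ν i) ∂μ) := by
  refine ⟨?_, ?_⟩
  · intro d μ hμ h0 S hS ν hν hn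
    exact Pool.Agent.GPI.gpi_uncorrelated μ h0 S hS ν hν hn
  · intro d μ hμ h0 S hS ν hν n hn
    exact Pool.Agent.GPI.gpi_mixed μ h0 S hS ν hν n hn

end Pool.Agent.Results.MP_130bb2_pr.UncorrelatedAndSquares
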